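import Mathlib
import Pool.Agent.Lib.MP_164614_an.Defs
import Pool.Agent.Lib.MP_164614_an.FinP
import Pool.Agent.Lib.MP_164614_an.NE1

set_option autoImplicit false

namespace Pool.Agent.Results.MP_164614_an.AllFibers

open Pool.Agent.Lib.MP_164614_an
open scoped ENNReal

/-- For every `1 ≤ p < ∞`, every fiber of the spectrum of `A_u(B_{ℓ_p})` over a point of the closed
unit ball of the bidual of `ℓ_p` contains a strong boundary point. -/
theorem result (p : ℝ≥0∞) [Fact (1 ≤ p)] (hp : p ≠ ∞) :
    EveryFiberHasStrongBoundaryPoint (lp (fun _ : ℕ => ℂ) p) := by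
  intro z hz
  rcases eq_or_lt_of_le (Fact.out : (1 : ℝ≥0∞) ≤ p) with h1 | h1
  · subst h1
    exact strong_boundary_one z hz
  · exact strong_boundary_of_one_lt hp (by
      have := (ENNReal.toReal_lt_toReal ENNReal.one_ne_top hp).mpr h1
      simpa using this) z hz

end Pool.Agent.Results.MP_164614_an.AllFibers
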